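import Pool.Agent.Work.MP_91103f_lv_helper4.HWC

/-!
# Block VB: there are many vertical bridges
-/

namespace Pool.TriLev.helper4

open Pool.Agent.Work.MP_91103f_co
open Filter Topology

/-- bridges of height `k` ending at `(a, k)` -/
def BRe (k : ℕ) (a : ℤ) (n : ℕ) : Set (List (ℤ × ℤ)) :=
  {L | L ∈ PL T6 (0, 0) n ∧ (∀ p ∈ L, 0 < p.2 ∧ p.2 ≤ k) ∧ L.getLastD (0, 0) = (a, (k : ℤ))}

theorem finite_BRe (k : ℕ) (a : ℤ) (n : ℕ) : (BRe k a n).Finite :=
  (finite_PL6 _ n).subset fun _ h => h.1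

theorem finite_BRk (k n : ℕ) : (BRk k n).Finite :=
  (finite_PL6 _ n).subset fun _ h => h.1

theorem finite_VB (N h : ℕ) : (VB N h).Finite :=
  (finite_PL6 _ N).subset fun _ h => h.1

/-- the mirror image, translated -/
def mir (a k : ℤ) (p : ℤ × ℤ) : ℤ × ℤ := (a - p.1 - p.2, p.2 + k)

theorem mir_adj (a k : ℤ) {p r : ℤ × ℤ} (h : T6.Adj p r) :
    T6.Adj (mir a k p) (mir a k r) := by
  rw [t6_adj] at h ⊢
  unfold mir
  dsimp only
  omega

theorem mir_inj (a k : ℤ) : Function.Injective (mir a k) := by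
  rintro ⟨c, d⟩ ⟨c', d'⟩ h
  unfold mir at h
  rw [Prod.mk.injEq] at h ⊢
  dsimp only at h
  omega

/-- the end of a walk of length `n` is at horizontal distance at most `n` -/
theorem last_bound : ∀ (L : List (ℤ × ℤ)) (u : ℤ × ℤ), List.IsChain T6.Adj (u :: L) →
    |(L.getLastD u).1 - u.1| ≤ L.length := by
  intro L
  induction L with
  | nil => intro u _; simp
  | cons v L ih =>
    intro u h
    rw [List.isChain_cons_cons] at h
    have h1 := ih v h.2
    have h2 := (t6_adj u v).1 h.1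
    have h3 : (v :: L).getLastD u = L.getLastD v := by
      rw [List.getLastD_cons]
    rw [h3, List.length_cons]
    rw [abs_le] at h1 ⊢
    push_cast
    constructor <;> omega

theorem isChain_append_of {L L' : List (ℤ × ℤ)} (u : ℤ × ℤ) (h : List.IsChain T6.Adj (u :: L))
    (h' : List.IsChain T6.Adj (L.getLastD u :: L')) : List.IsChain T6.Adj (u :: (L ++ L')) := by
  induction L generalizing u with
  | nil => simpa using h'
  | cons v L ih =>
    rw [List.isChain_cons_cons] at h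
    rw [List.cons_append, List.isChain_cons_cons]
    refine ⟨h.1, ih v h.2 ?_⟩
    rw [List.getLastD_cons] at h'
    exact h'

theorem getLastD_append_map (f : ℤ × ℤ → ℤ × ℤ) (L L' : List (ℤ × ℤ)) (u : ℤ × ℤ)
    (h : L' ≠ []) : (L ++ L'.map f).getLastD u = f (L'.getLastD u) := by
  rw [List.getLastD_eq_getLast?, List.getLastD_eq_getLast?, List.getLast?_append,
    List.getLast?_map]
  cases L' with
  | nil => exact absurd rfl h
  | cons v L' =>
    rw [List.getLast?_cons]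
    simp

theorem glue {k n : ℕ} {a : ℤ} (hn : 1 ≤ n) {L L' : List (ℤ × ℤ)} (hL : L ∈ BRe k a n)
    (hL' : L' ∈ BRe k a n) : L ++ L'.map (mir a k) ∈ VB (2 * n) k := by
  obtain ⟨⟨hc, hnd, hl⟩, hp, he⟩ := hL
  obtain ⟨⟨hc', hnd', hl'⟩, hp', he'⟩ := hL'
  have hne : L' ≠ [] := by
    rintro rfl
    simp at hl'
    omega
  have e0 : ((a, (k : ℤ)) : ℤ × ℤ) = mir a k (0, 0) := by
    unfold mir; ext <;> simp
  refine ⟨⟨?_, ?_, ?_⟩, ?_, ?_⟩
  · apply isChain_append_of _ hc
    rw [he, e0, ← List.map_cons, List.isChain_map]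
    exact hc'.imp fun _ _ h => mir_adj a k h
  · rw [← List.cons_append, List.nodup_append]
    refine ⟨hnd, (List.nodup_cons.1 hnd').2.map (mir_inj a k), ?_⟩
    intro p hpp q hq hpq
    rw [List.mem_map] at hq
    obtain ⟨q', hq', rfl⟩ := hq
    have h1 : p.2 ≤ k := by
      rw [List.mem_cons] at hpp
      rcases hpp with h | h
      · rw [h]; dsimp only; omega
      · exact (hp p h).2
    have h2 := (hp' q' hq').1
    have h3 : p.2 = q'.2 + k := by rw [hpq]; rfl
    omega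
  · rw [List.length_append, List.length_map, hl, hl']
    ring
  · rw [getLastD_append_map _ _ _ _ hne, he']
    unfold mir
    ext
    · dsimp only; ring
    · dsimp only; ring
  · intro p hpp
    rw [List.mem_append, List.mem_map] at hpp
    rcases hpp with h | ⟨q, hq, rfl⟩
    · have := hp p h
      constructor <;> omega
    · have := hp' q hq
      unfold mir
      dsimp only
      constructor <;> omega

theorem sq_le_VB {k n : ℕ} {a : ℤ} (hn : 1 ≤ n) :
    (BRe k a n).ncard * (BRe k a n).ncard ≤ (VB (2 * n) k).ncard := by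
  rw [Set.ncard_eq_toFinset_card _ (finite_BRe k a n), ← Finset.card_product,
    Set.ncard_eq_toFinset_card _ (finite_VB (2 * n) k)]
  apply Finset.card_le_card_of_injOn (fun t => t.1 ++ t.2.map (mir a k))
  · rintro ⟨L, L'⟩ h
    rw [Finset.mem_coe, Finset.mem_product, Set.Finite.mem_toFinset,
      Set.Finite.mem_toFinset] at h
    rw [Finset.mem_coe, Set.Finite.mem_toFinset]
    exact glue hn h.1 h.2
  · rintro ⟨L, L'⟩ h ⟨M, M'⟩ h' hh
    rw [Finset.mem_coe, Finset.mem_product, Set.Finite.mem_toFinset,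
      Set.Finite.mem_toFinset] at h h'
    have hlen : L.length = M.length := by
      rw [h.1.1.2.2, h'.1.1.2.2]
    have h5 := List.append_inj hh hlen
    rw [Prod.mk.injEq]
    exact ⟨h5.1, List.map_injective_iff.2 (mir_inj a k) h5.2⟩

theorem BRk_le (k n : ℕ) : (BRk k n).ncard ≤
    ∑ a ∈ Finset.Icc (-(n : ℤ)) n, (BRe k a n).ncard := by
  have h1 : ∀ a, (BRe k a n).ncard = (finite_BRe k a n).toFinset.card :=
    fun a => Set.ncard_eq_toFinset_card _ (finite_BRe k a n)
  simp_rw [h1]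
  rw [Set.ncard_eq_toFinset_card _ (finite_BRk k n)]
  refine le_trans (Finset.card_le_card ?_) Finset.card_biUnion_le
  intro L hL
  rw [Set.Finite.mem_toFinset] at hL
  rw [Finset.mem_biUnion]
  obtain ⟨⟨hc, hnd, hl⟩, hp, he⟩ := hL
  refine ⟨(L.getLastD (0, 0)).1, ?_, ?_⟩
  · have := last_bound L (0, 0) hc
    rw [hl, abs_le] at this
    rw [Finset.mem_Icc]
    dsimp only at this
    omega
  · rw [Set.Finite.mem_toFinset]
    refine ⟨⟨hc, hnd, hl⟩, hp, ?_⟩
    ext
    · rfl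
    · exact he

theorem br_le (n : ℕ) : br n ≤
    ∑ k ∈ Finset.range (n + 1), ∑ a ∈ Finset.Icc (-(n : ℤ)) n, (BRe k a n).ncard :=
  Finset.sum_le_sum fun k _ => BRk_le k n

theorem pigeon {ρ : ℝ} {n : ℕ} (h : ((n : ℝ) + 1) * (2 * n + 1) * ρ ^ n < br n) :
    ∃ k ≤ n, ∃ a : ℤ, ρ ^ n ≤ ((BRe k a n).ncard : ℝ) := by
  by_contra hcon
  push Not at hcon
  have h1 : (br n : ℝ) ≤ ∑ k ∈ Finset.range (n + 1), ∑ a ∈ Finset.Icc (-(n : ℤ)) n,
      ((BRe k a n).ncard : ℝ) := by
    exact_mod_cast br_le n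
  have h2 : ∑ k ∈ Finset.range (n + 1), ∑ a ∈ Finset.Icc (-(n : ℤ)) n,
      ((BRe k a n).ncard : ℝ) ≤ ∑ _k ∈ Finset.range (n + 1), ∑ _a ∈ Finset.Icc (-(n : ℤ)) n,
      ρ ^ n := by
    apply Finset.sum_le_sum
    intro k hk
    apply Finset.sum_le_sum
    intro a _
    exact (hcon k (by rw [Finset.mem_range] at hk; omega) a).le
  rw [Finset.sum_const, Finset.sum_const, Finset.card_range, Int.card_Icc, nsmul_eq_mul,
    nsmul_eq_mul] at h2
  have h3 : (((n : ℤ) + 1 - -(n : ℤ)).toNat : ℝ) = 2 * n + 1 := by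
    have : ((n : ℤ) + 1 - -(n : ℤ)).toNat = 2 * n + 1 := by omega
    rw [this]
    push_cast
    ring
  rw [h3] at h2
  push_cast at h2
  nlinarith

theorem eventually_poly {x : ℝ} (hx : 1 < x) :
    ∀ᶠ n : ℕ in atTop, ((n : ℝ) + 1) * (2 * n + 1) ≤ x ^ n := by
  have h1 : Tendsto (fun n : ℕ => ((n : ℝ)) ^ 2 / x ^ n) atTop (𝓝 0) :=
    tendsto_pow_const_div_const_pow_of_one_lt 2 hx
  have h2 : ∀ᶠ n : ℕ in atTop, ((n : ℝ)) ^ 2 / x ^ n < 1 / 6 :=
    h1.eventually (gt_mem_nhds (by norm_num))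
  filter_upwards [h2, eventually_ge_atTop 1] with n hn h3
  have hxp : 0 < x ^ n := pow_pos (by linarith) n
  rw [div_lt_iff₀ hxp] at hn
  have h4 : (1 : ℝ) ≤ n := by exact_mod_cast h3
  nlinarith

theorem stmt_VB (hHW : Stmt_HW) : Stmt_VB := by
  intro ρ hρ hlim
  -- intermediate rates
  obtain ⟨σ, hσ1, hσ2⟩ := ENNReal.lt_iff_exists_nnreal_btwn.1 hlim
  have hρσ : ρ < (σ : ℝ) := by
    rw [ENNReal.ofReal, ENNReal.coe_lt_coe, Real.toNNReal_lt_iff_lt_coe hρ.le] at hσ1
    exact hσ1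
  have hσ' : ENNReal.ofReal (σ : ℝ) = (σ : ENNReal) := ENNReal.ofReal_coe_nnreal
  obtain ⟨ρ1, h1, h2⟩ := exists_between hρσ
  have hρ1 : 0 < ρ1 := hρ.trans h1
  -- bridges are frequent
  have hfreq : ∃ᶠ n in atTop, ρ1 ^ n < (br n : ℝ) := by
    intro hev
    have hev' : ∀ᶠ n in atTop, (br n : ℝ) ≤ ρ1 ^ n := hev.mono fun n hn => not_lt.1 hn
    obtain ⟨n0, hn0⟩ := eventually_atTop.1 hev'
    obtain ⟨C', hC'⟩ := hHW ρ1 σ (1 + ∑ m ∈ Finset.range n0, (br m : ℝ) / ρ1 ^ m) hρ1 h2 (by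
      intro n
      have hp : 0 < ρ1 ^ n := pow_pos hρ1 n
      have hnn : ∀ m ∈ Finset.range n0, 0 ≤ (br m : ℝ) / ρ1 ^ m := fun m _ => by positivity
      by_cases hn : n0 ≤ n
      · calc (br n : ℝ) ≤ 1 * ρ1 ^ n := by rw [one_mul]; exact hn0 n hn
          _ ≤ _ := mul_le_mul_of_nonneg_right
              (le_add_of_nonneg_right (Finset.sum_nonneg hnn)) hp.le
      · have hmem : n ∈ Finset.range n0 := Finset.mem_range.2 (not_le.1 hn)
        calc (br n : ℝ) = ((br n : ℝ) / ρ1 ^ n) * ρ1 ^ n := by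
              rw [div_mul_cancel₀ _ hp.ne']
          _ ≤ _ := mul_le_mul_of_nonneg_right
              ((Finset.single_le_sum hnn hmem).trans (by linarith)) hp.le)
    have hle : limsup (fun n : ℕ => ((c6 n : ENNReal)) ^ ((1 : ℝ) / n)) atTop ≤
        ENNReal.ofReal (σ : ℝ) := by
      apply limsup_root_le (C := max C' 1) (by positivity) σ.coe_nonneg
      filter_upwards with n
      exact (hC' n).trans (mul_le_mul_of_nonneg_right (le_max_left _ _)
        (pow_nonneg σ.coe_nonneg n))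
    rw [hσ'] at hle
    exact absurd (lt_of_lt_of_le hσ2 hle) (lt_irrefl _)
  have hx : 1 < ρ1 / ρ := (one_lt_div hρ).2 h1
  obtain ⟨n, hbr, hpoly, hn1⟩ := (hfreq.and_eventually
    ((eventually_poly hx).and (eventually_ge_atTop 1))).exists
  have hpn : 0 < ρ ^ n := pow_pos hρ n
  have hlt : ((n : ℝ) + 1) * (2 * n + 1) * ρ ^ n < br n := by
    rw [div_pow, le_div_iff₀ hpn] at hpoly
    exact lt_of_le_of_lt hpoly hbr
  obtain ⟨k, hk, a, ha⟩ := pigeon hlt
  have hk0 : 0 < k := by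
    rcases Nat.eq_zero_or_pos k with h0 | h0
    · exfalso
      subst h0
      have hempty : BRe 0 a n = ∅ := by
        rw [Set.eq_empty_iff_forall_notMem]
        rintro L ⟨⟨_, _, hl⟩, hp, _⟩
        cases L with
        | nil => simp at hl; omega
        | cons v L =>
          have := hp v (by simp)
          have h6 := this.1
          have h7 := this.2
          push_cast at h7
          omega
      rw [hempty, Set.ncard_empty] at ha
      push_cast at ha
      linarith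
    · exact h0
  refine ⟨2 * n, k, by omega, hk0, by omega, ?_⟩
  calc ρ ^ (2 * n) = ρ ^ n * ρ ^ n := by ring
    _ ≤ ((BRe k a n).ncard : ℝ) * ((BRe k a n).ncard : ℝ) :=
        mul_le_mul ha ha hpn.le (Nat.cast_nonneg _)
    _ ≤ ((VB (2 * n) k).ncard : ℝ) := by exact_mod_cast sq_le_VB hn1

end Pool.TriLev.helper4
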