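import Pool.Agent.Work.MP_91103f_lv.Interface

/-!
# Block HWC: cutting a walk at its last lowest point
-/

namespace Pool.TriLev.helper4

open Pool.Agent.Work.MP_91103f_co

theorem t6_adj (p r : ℤ × ℤ) : T6.Adj p r ↔
    (r.1 - p.1 = 1 ∧ r.2 - p.2 = 0) ∨ (r.1 - p.1 = 0 ∧ r.2 - p.2 = 1) ∨
    (r.1 - p.1 = -1 ∧ r.2 - p.2 = 1) ∨ (r.1 - p.1 = -1 ∧ r.2 - p.2 = 0) ∨
    (r.1 - p.1 = 0 ∧ r.2 - p.2 = -1) ∨ (r.1 - p.1 = 1 ∧ r.2 - p.2 = -1) := by
  obtain ⟨a, b⟩ := p
  obtain ⟨c, d⟩ := r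
  rw [SimpleGraph.fromRel_adj]
  simp only [Set.mem_insert_iff, Set.mem_singleton_iff, Prod.mk.injEq, ne_eq]
  omega

theorem t6_finite (v : ℤ × ℤ) : (T6.neighborSet v).Finite := by
  refine (Set.toFinite ({(v.1 + 1, v.2), (v.1, v.2 + 1), (v.1 - 1, v.2 + 1), (v.1 - 1, v.2),
    (v.1, v.2 - 1), (v.1 + 1, v.2 - 1)} : Set (ℤ × ℤ))).subset ?_
  rintro ⟨c, d⟩ h
  rw [SimpleGraph.mem_neighborSet, t6_adj] at h
  simp only [Set.mem_insert_iff, Set.mem_singleton_iff, Prod.mk.injEq]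
  dsimp only at h
  omega

theorem finite_PL6 (u : ℤ × ℤ) (n : ℕ) : (PL T6 u n).Finite := finite_PL t6_finite n u

theorem finite_HS (n : ℕ) : (HS n).Finite := (finite_PL6 _ n).subset fun _ h => h.1

/-- translation -/
def tr (q : ℤ × ℤ) (e : ℤ) (p : ℤ × ℤ) : ℤ × ℤ := (p.1 - q.1, p.2 - q.2 + e)

theorem tr_adj (q : ℤ × ℤ) (e : ℤ) {p r : ℤ × ℤ} (h : T6.Adj p r) :
    T6.Adj (tr q e p) (tr q e r) := by
  rw [t6_adj] at h ⊢
  unfold tr
  dsimp only
  omega

theorem tr_inj (q : ℤ × ℤ) (e : ℤ) : Function.Injective (tr q e) := by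
  rintro ⟨a, b⟩ ⟨c, d⟩ h
  unfold tr at h
  rw [Prod.mk.injEq] at h ⊢
  dsimp only at h
  omega

theorem cut (W : List (ℤ × ℤ)) : W ≠ [] → ∃ (A : List (ℤ × ℤ)) (q : ℤ × ℤ) (B : List (ℤ × ℤ)),
    W = A ++ q :: B ∧ (∀ p ∈ A, q.2 ≤ p.2) ∧ (∀ p ∈ B, q.2 < p.2) := by
  induction W with
  | nil => intro h; exact absurd rfl h
  | cons w W ih =>
    intro _
    by_cases hW : W = []
    · subst hW
      exact ⟨[], w, [], rfl, by simp, by simp⟩
    · obtain ⟨A, q, B, h1, h2, h3⟩ := ih hW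
      by_cases hq : w.2 < q.2
      · refine ⟨[], w, W, rfl, by simp, ?_⟩
        intro p hp
        rw [h1, List.mem_append, List.mem_cons] at hp
        rcases hp with hp | hp | hp
        · exact lt_of_lt_of_le hq (h2 p hp)
        · rw [hp]; exact hq
        · exact hq.trans (h3 p hp)
      · refine ⟨w :: A, q, B, by rw [h1]; rfl, ?_, h3⟩
        intro p hp
        rw [List.mem_cons] at hp
        rcases hp with hp | hp
        · rw [hp]; exact not_lt.1 hq
        · exact h2 p hp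

/-- the first part, reversed -/
def RR (A : List (ℤ × ℤ)) (q : ℤ × ℤ) : List (ℤ × ℤ) := ((A ++ [q]).map (tr q 1)).reverse

/-- the second part -/
def DD (q : ℤ × ℤ) (B : List (ℤ × ℤ)) : List (ℤ × ℤ) := B.map (tr q 0)

theorem DD_mem {n : ℕ} {L A B : List (ℤ × ℤ)} {q : ℤ × ℤ} (hL : L ∈ PL T6 (0, 0) n)
    (h1 : (0, 0) :: L = A ++ q :: B) (h3 : ∀ p ∈ B, q.2 < p.2) :
    DD q B ∈ HS (n - A.length) := by
  obtain ⟨hc, hn, hl⟩ := hL
  rw [h1] at hc hn
  have hlen := congrArg List.length h1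
  rw [List.length_cons, List.length_append, List.length_cons] at hlen
  have e0 : ((0, 0) : ℤ × ℤ) = tr q 0 q := by unfold tr; ext <;> simp
  have hcB : List.IsChain T6.Adj (q :: B) := (List.isChain_append.1 hc).2.1
  have hnB : (q :: B).Nodup := (List.nodup_append.1 hn).2.1
  refine ⟨⟨?_, ?_, ?_⟩, ?_⟩
  · rw [e0, DD, ← List.map_cons, List.isChain_map]
    exact hcB.imp fun _ _ h => tr_adj q 0 h
  · rw [e0, DD, ← List.map_cons]
    exact hnB.map (tr_inj q 0)
  · rw [DD, List.length_map]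
    omega
  · intro p hp
    rw [DD, List.mem_map] at hp
    obtain ⟨p', hp', rfl⟩ := hp
    have := h3 p' hp'
    unfold tr
    dsimp only
    omega

theorem RR_mem {n : ℕ} {L A B : List (ℤ × ℤ)} {q : ℤ × ℤ} (hL : L ∈ PL T6 (0, 0) n)
    (h1 : (0, 0) :: L = A ++ q :: B) (h2 : ∀ p ∈ A, q.2 ≤ p.2) :
    RR A q ∈ HS (A.length + 1) := by
  obtain ⟨hc, hn, hl⟩ := hL
  rw [h1] at hc hn
  have h1' : A ++ q :: B = (A ++ [q]) ++ B := by simp
  rw [h1'] at hc hn
  have hcA : List.IsChain T6.Adj (A ++ [q]) := (List.isChain_append.1 hc).1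
  have hnA : (A ++ [q]).Nodup := (List.nodup_append.1 hn).1
  have hpos : ∀ p ∈ RR A q, 0 < p.2 := by
    intro p hp
    rw [RR, List.mem_reverse, List.mem_map] at hp
    obtain ⟨p', hp', rfl⟩ := hp
    rw [List.mem_append, List.mem_singleton] at hp'
    have : q.2 ≤ p'.2 := by
      rcases hp' with hp' | hp'
      · exact h2 p' hp'
      · rw [hp']
    unfold tr
    dsimp only
    omega
  refine ⟨⟨?_, ?_, ?_⟩, hpos⟩
  · have hR : RR A q = tr q 1 q :: ((A.map (tr q 1)).reverse) := by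
      rw [RR]; simp
    have h5 : List.IsChain T6.Adj (RR A q) := by
      rw [RR, List.isChain_reverse, List.isChain_map]
      exact hcA.imp fun _ _ h => tr_adj q 1 h.symm
    rw [hR] at h5 ⊢
    rw [List.isChain_cons_cons]
    refine ⟨?_, h5⟩
    rw [t6_adj]
    unfold tr
    dsimp only
    omega
  · rw [List.nodup_cons]
    refine ⟨fun h => lt_irrefl _ (hpos _ h), ?_⟩
    rw [RR, List.nodup_reverse]
    exact hnA.map (tr_inj q 1)
  · rw [RR, List.length_reverse, List.length_map, List.length_append, List.length_singleton]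

theorem RD_inj {L L' A B A' B' : List (ℤ × ℤ)} {q q' : ℤ × ℤ}
    (h : (0, 0) :: L = A ++ q :: B) (h' : (0, 0) :: L' = A' ++ q' :: B')
    (hR : RR A q = RR A' q') (hD : DD q B = DD q' B') : L = L' := by
  have e1 : (A ++ [q]).head? = some (0, 0) := by
    have : ((0, 0) :: L).head? = (A ++ q :: B).head? := by rw [h]
    cases A with
    | nil => simpa using this.symm
    | cons a A => simpa using this.symm
  have e2 : (A' ++ [q']).head? = some (0, 0) := by
    have : ((0, 0) :: L').head? = (A' ++ q' :: B').head? := by rw [h']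
    cases A' with
    | nil => simpa using this.symm
    | cons a A' => simpa using this.symm
  have hR2 : (A ++ [q]).map (tr q 1) = (A' ++ [q']).map (tr q' 1) := List.reverse_injective hR
  have e3 : tr q 1 (0, 0) = tr q' 1 (0, 0) := by
    have := congrArg List.head? hR2
    rw [List.head?_map, List.head?_map, e1, e2] at this
    simpa using this
  have hq : q = q' := by
    unfold tr at e3
    rw [Prod.mk.injEq] at e3
    ext
    · have := e3.1; dsimp only at this; omega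
    · have := e3.2; dsimp only at this; omega
  subst hq
  have hA : A ++ [q] = A' ++ [q] := List.map_injective_iff.2 (tr_inj q 1) hR2
  have hA' : A = A' := List.append_cancel_right hA
  have hB' : B = B' := List.map_injective_iff.2 (tr_inj q 0) hD
  subst hA' hB'
  have := h.trans h'.symm
  exact (List.cons.inj this).2

theorem stmt_HWC : Stmt_HWC := by
  intro n
  have key : ∀ L ∈ PL T6 (0, 0) n, ∃ t : Σ _ : ℕ, List (ℤ × ℤ) × List (ℤ × ℤ),
      ∃ (A : List (ℤ × ℤ)) (q : ℤ × ℤ) (B : List (ℤ × ℤ)), (0, 0) :: L = A ++ q :: B ∧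
        (∀ p ∈ A, q.2 ≤ p.2) ∧ (∀ p ∈ B, q.2 < p.2) ∧ t = ⟨A.length, (RR A q, DD q B)⟩ := by
    intro L _
    obtain ⟨A, q, B, h1, h2, h3⟩ := cut ((0, 0) :: L) (by simp)
    exact ⟨_, A, q, B, h1, h2, h3, rfl⟩
  choose! f hf using key
  unfold c6
  rw [Set.ncard_eq_toFinset_card _ (finite_PL6 (0, 0) n)]
  have hcard : ∀ m, (HS (m + 1)).ncard * (HS (n - m)).ncard =
      ((finite_HS (m + 1)).toFinset ×ˢ (finite_HS (n - m)).toFinset).card := by
    intro m
    rw [Finset.card_product, Set.ncard_eq_toFinset_card _ (finite_HS (m + 1)),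
      Set.ncard_eq_toFinset_card _ (finite_HS (n - m))]
  simp_rw [hcard]
  rw [← Finset.card_sigma]
  apply Finset.card_le_card_of_injOn f
  · intro L hL
    rw [Finset.mem_coe, Set.Finite.mem_toFinset] at hL
    obtain ⟨A, q, B, h1, h2, h3, h4⟩ := hf L hL
    rw [h4, Finset.mem_coe, Finset.mem_sigma, Finset.mem_range, Finset.mem_product,
      Set.Finite.mem_toFinset, Set.Finite.mem_toFinset]
    refine ⟨?_, RR_mem hL h1 h2, DD_mem hL h1 h3⟩
    have hlen := congrArg List.length h1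
    rw [List.length_cons, List.length_append, List.length_cons, hL.2.2] at hlen
    dsimp only
    omega
  · intro L hL L' hL' hff
    rw [Finset.mem_coe, Set.Finite.mem_toFinset] at hL hL'
    obtain ⟨A, q, B, h1, h2, h3, h4⟩ := hf L hL
    obtain ⟨A', q', B', h1', h2', h3', h4'⟩ := hf L' hL'
    rw [h4, h4'] at hff
    rw [Sigma.mk.injEq] at hff
    have h5 := eq_of_heq hff.2
    rw [Prod.mk.injEq] at h5
    exact RD_inj h1 h1' h5.1 h5.2

end Pool.TriLev.helper4
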